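import Pool.Agent.U642.DU.Dim

set_option autoImplicit false

/-!
# Prime-free windows of length `c log N log log N / k` at `k` arbitrary affine forms, at the sum of two
# arbitrary dense sets of integer vectors

Let `A` and `B` be ANY two sets of integer vectors in the box `[1, N] ^ d` with at least
`N ^ d / (log N) ^ K` elements each, `α` and `β` any nonzero integers and `ℓ₁, …, ℓ_k` any nonconstant
affine functions with integer coefficients on `ℤ ^ d`; all coefficients, constant terms and `α, β` can be
as large as `exp ((log N) ^ K)`.  Then there are `a ∈ A` and `b ∈ B` such that for ALL `i ≤ k` no prime is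
at distance at most `(c / k) log N log log N` from `|ℓ_i (α a + β b)|`.  Here `k` can grow up to
`c log log N`, and `c > 0` depends only on `d` and `K`.

For bounded `k` these windows are longer than the longest published gaps between primes
(`c log N log₂ N log₄ N / log₃ N`, Ford, Green, Konyagin, Maynard and Tao 2018), at `k` places at once and
with both vectors in arbitrary dense sets; for `k` of the order `log log N` they still are longer than any
given multiple of the average gap.  Examples: `d = 1` and `ℓ_i (x) = x + w_i` with arbitrary shifts `w_i`,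
that is, `k` arbitrary translates of a sum (or a difference, or `α a + β b` with arbitrary coefficients)
lie in long prime-free windows simultaneously; `d = 2`, `A = A₁ × A₂`: all the numbers
`s (a₁ + b₁) + t (a₂ + b₂)`, `|s|, |t| ≤ J`, not both `0`.  Sets in other boxes of side `N` are covered
too, as the `w_i` are arbitrary.

Method.
(1) Let `y = log N / 10`.  For EVERY residue class modulo the product of the primes up to `y` the upper
bound sieve shows that at most `50 k L / log y` of the integers of the windows have no prime factor up to
`y` (`DU/Sel`); these are at most `c₀ log N` shifts.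
(2) They are covered by primes between a power of `log N` and `N ^ (1 / 10000)` with the quadratic
covering sieve of the starting library (H256R2/SC, helper256), in which now the primes dividing the
determinants of the affine functions or the coefficients are not used (`DU/CovE`, `DU/SoftG`).
(3) The Fourier coefficients of the weight and the large sieve for the frequencies multiplied by `α`
and `β` give the positivity of the sum of the weight over the pairs of elements of two arbitrary sets of
density `(log N) ^ (-K)` (`DS/Mod`, `DU/FouM`).
(4) In dimension `d` one restricts both sets to two parallel lines on which they are dense and on which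
all forms are nonconstant (`DU/Dim`).
-/

namespace Pool.Agent.Results.MP_69be96_nt.AffineFormsInDenseSets

open Finset Pool.Agent.U642.DU

/-- For all `d`, `K` there is `c > 0` such that for all large `N`, all sets `A, B ⊆ [1, N] ^ d` with at
least `N ^ d / (log N) ^ K` elements, all nonzero integers `α, β` with absolute values
`≤ exp ((log N) ^ K)`, all `1 ≤ k ≤ c log log N` and all affine functions
`ℓ_i (x) = ∑ u_{ij} x_j + w_i` (`i < k`) with integer coefficients of absolute values
`≤ exp ((log N) ^ K)`, `u_i ≠ 0`, there are `a ∈ A`, `b ∈ B` with no prime at distance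
`≤ (c / k) log N log log N` from `|ℓ_i (α a + β b)|`, for all `i < k`. -/
theorem result (d K : ℕ) : ∃ c : ℝ, 0 < c ∧ ∃ N₀ : ℕ, ∀ N : ℕ, N₀ ≤ N →
    ∀ A B : Finset (Fin d → ℤ),
    (∀ x ∈ A, ∀ j, 1 ≤ x j ∧ x j ≤ N) → (∀ x ∈ B, ∀ j, 1 ≤ x j ∧ x j ≤ N) →
    (N : ℝ) ^ d / (Real.log N) ^ K ≤ A.card → (N : ℝ) ^ d / (Real.log N) ^ K ≤ B.card →
    ∀ α β : ℤ, α ≠ 0 → β ≠ 0 →
    |(α : ℝ)| ≤ Real.exp ((Real.log N) ^ K) → |(β : ℝ)| ≤ Real.exp ((Real.log N) ^ K) →
    ∀ k : ℕ, 1 ≤ k → (k : ℝ) ≤ c * Real.log (Real.log N) →
    ∀ (u : Fin k → Fin d → ℤ) (w : Fin k → ℤ),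
    (∀ i, u i ≠ 0 ∧ (∀ j, |(u i j : ℝ)| ≤ Real.exp ((Real.log N) ^ K)) ∧
      |(w i : ℝ)| ≤ Real.exp ((Real.log N) ^ K)) →
    ∃ a ∈ A, ∃ b ∈ B, ∀ i, ∀ p : ℕ, p.Prime →
      c / k * (Real.log N * Real.log (Real.log N)) <
        abs ((p : ℝ) - |∑ j, (u i j : ℝ) * (α * a j + β * b j) + w i|) :=
  mainD d K

end Pool.Agent.Results.MP_69be96_nt.AffineFormsInDenseSets
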