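import Pool.Agent.U602.AU.Main

set_option autoImplicit false

/-! # Automatic sets in record gaps between primes

Let `b ≥ 2` and let `A` be a `b`-automatic set of natural numbers, that is, the sets
`{n : b ^ k n + r ∈ A}`, `0 ≤ r < b ^ k`, are finitely many; equivalently a finite automaton
recognises the members of `A` by their digits in base `b`. If `A` has positive upper Banach density,
then for every `ε > 0` there is `κ > 0` such that for all large `X` at least `X ^ (1 - ε)` members
`n ≤ X` of `A` have no prime at distance at most `κ f(X)`, where
`f(X) = log X (log₂ X)² log₄ X / (log₃ X)²` is the size of the largest gaps between primes that are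
known to occur (starting files).

Examples: the sets of the `n` for which the number of ones (Thue-Morse), the number of blocks `11`
(Rudin-Shapiro), or the numbers of occurrences of any finitely many blocks in the binary digits of
`n` take prescribed residues, in any class `n ≡ a (mod q)` which is not excluded by this.

Proof. Let the automaton be in a recurrent state. After grouping the digits in blocks one may assume
that each state of a class can be reached from each other one by one digit. Functions on the class
which behave under the transitions like a character of frequency `-θ` are called special; their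
frequencies have denominators at most the number of states. Modulo the special functions the
exponential sums of the automaton contract exponentially, uniformly in the frequency (compactness);
the sums of special functions are geometric sums. So the numbers which lead from one state to
another are equidistributed, with a power saving, modulo all `q` prime to a fixed number `D`. The
covering criterion of the starting library (`TH915/PW/Crit.lean`, from `MP_3bc45c_nt.RecordGaps` of
helper256's team) is extended to such families: the primes dividing `D` are not used, which is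
possible since the class `0` is never used by the sieve for the small primes. -/

namespace Pool.Agent.Results.MP_69be96_nt.AutomaticSets

open Filter

theorem result (b : ℕ) (hb : 2 ≤ b) (A : Set ℕ)
    (hA : {B : Set ℕ | ∃ k r : ℕ, r < b ^ k ∧ B = {n : ℕ | b ^ k * n + r ∈ A}}.Finite)
    (c : ℝ) (hc : 0 < c)
    (hd : ∀ H : ℕ, ∃ u v : ℕ, u + H ≤ v ∧ c * ((v : ℝ) - u) ≤ ((A ∩ Set.Ioc u v).ncard : ℝ))
    (ε : ℝ) (hε : 0 < ε) :
    ∃ κ : ℝ, 0 < κ ∧ ∃ X₀ : ℝ, ∀ X : ℝ, X₀ ≤ X →
      X ^ (1 - ε) ≤ ({n : ℕ | n ∈ A ∧ (n : ℝ) ≤ X ∧ ∀ q : ℕ, q.Prime →
        κ * (Real.log X * (Real.log (Real.log X)) ^ 2 *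
          Real.log (Real.log (Real.log (Real.log X))) / (Real.log (Real.log (Real.log X))) ^ 2) <
            |(q : ℝ) - n|}.ncard : ℝ) := by
  classical
  obtain ⟨κ, hκ, h⟩ := Pool.Agent.U602.AU.main_kernel b hb A hA c hc (by
    intro H
    obtain ⟨u, v, huv, h⟩ := hd H
    refine ⟨u, v, huv, h.trans (le_of_eq ?_)⟩
    rw [← Set.ncard_coe_finset]
    congr 2
    ext n
    simp [and_comm]) ε hε
  obtain ⟨X₀, hX₀⟩ := eventually_atTop.1 h
  refine ⟨κ, hκ, max X₀ 0, fun X hX => ?_⟩
  have h1 := hX₀ X ((le_max_left _ _).trans hX)
  have hX0 : 0 ≤ X := (le_max_right _ _).trans hX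
  refine h1.trans (le_of_eq ?_)
  rw [← Set.ncard_coe_finset]
  congr 2
  ext n
  simp only [Finset.coe_filter, Finset.mem_range, Set.mem_ofPred_eq, Nat.lt_succ_iff,
    Nat.le_floor_iff hX0]
  constructor
  · rintro ⟨h2, h3, h4⟩
    exact ⟨h3, h2, h4⟩
  · rintro ⟨h2, h3, h4⟩
    exact ⟨h3, h2, h4⟩

end Pool.Agent.Results.MP_69be96_nt.AutomaticSets
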