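import Pool.Agent.U55.SD.Many
import Pool.Agent.U55.SD.Gap
import Pool.Agent.U642.WP.Mono

set_option autoImplicit false
set_option maxHeartbeats 2000000

/-!
# Record prime gaps at the elements of dense Sidon sets

Let `f(x) = log x (log₂ x)² log₄ x / (log₃ x)²` be the order of the largest prime gaps that are
known to occur (starting files).  For a finite set `A` of integer vectors let `rep A h` be the number
of representations of `h` as a difference of two members of `A`.  A Sidon set is a set `A` with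
`rep A h ≤ 1` for all `h ≠ 0`; the largest Sidon sets in a box of `N ^ d` integer vectors have
`(1 + o(1)) N ^ (d / 2)` elements.

The theorem: let `A` be ANY Sidon set in a box `∏ (M_j, M_j + N]` with at least
`(1 - N ^ (-ε)) N ^ (d / 2)` elements, or, more generally, any set with `rep A h ≤ g` for all
`h ≠ 0` and `|A| ² ≥ (1 - N ^ (-ε)) g N ^ d` for some `g`, or, more generally still, any set whose
numbers of representations exceed the mean value `|A| ² / N ^ d` by at most `N ^ (-ε) |A| ²` in total.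
Then in every sub-box with sides at least `N ^ (1 - δ)` there are at least `|A| N ^ (-ε)` elements
`x` of `A` such that `x_1`, ..., `x_d`, and all the products `x_1 ^ (e_1) ⋯ x_d ^ (e_d)` with coprime
exponents `e_j ≤ E`, are simultaneously in the middle of prime gaps of the record size.

The case `d = 1` is: every dense Sidon set of integers (for instance every set constructed by Singer,
Bose or Ruzsa) has elements in the middle of record gaps in all the intervals of length
`N ^ (1 - δ)`.  In higher dimensions the theorem contains the graphs of the quadratic polynomials,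
and of all other planar functions, modulo a prime.

Method.  Let `c(t)` be the number of the points of `A` in the translate by `t` of the grid
`q {0, ..., u - 1} ^ d`, `u = N ^ (1 - 2 θ)`.  The second moment of `c(t)` only involves the numbers
`rep A h`, and so the variance of `c(t)` is small by a power of `N`: `A` is well distributed in the
residue classes modulo all `q ≤ N ^ θ` in sub-boxes.  The hypothesis is preserved if few elements
are removed.  The covering sieve for families of polynomials at well distributed families of integer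
vectors (helper837, helper542; after helper256 and helper378) then gives the record gaps.
-/

namespace Pool.Agent.Results.MP_69be96_nt.DenseSidonSets

open Finset Filter

/-- The record scale `f(x) = log x (log₂ x)² log₄ x / (log₃ x)²` (iterated natural logarithms). -/
noncomputable def f (x : ℝ) : ℝ :=
  Real.log x * (Real.log (Real.log x)) ^ 2 * Real.log (Real.log (Real.log (Real.log x))) /
    (Real.log (Real.log (Real.log x))) ^ 2

/-- The number of representations of `h` as a difference of two members of `A`, that is the number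
of the `x ∈ A` with `x + h ∈ A`. -/
def rep {d : ℕ} (A : Finset (Fin d → ℤ)) (h : Fin d → ℤ) : ℕ :=
  (A.filter (fun x => x + h ∈ A)).card

/-- The total excess over `lam` of the numbers of representations of the differences `h ≠ 0`: the sum
of `max (rep A h - lam) 0` over all `h ≠ 0` of the form `y - x`, `x, y ∈ A`. -/
noncomputable def excess {d : ℕ} (A : Finset (Fin d → ℤ)) (lam : ℝ) : ℝ :=
  ∑ h ∈ ((A ×ˢ A).image (fun z => z.2 - z.1)).erase 0, max ((rep A h : ℝ) - lam) 0

/-- The hypothesis on the set `A`: for some `g` every `h ≠ 0` has at most `g` representations as a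
difference and `|A| ² ≥ (1 - N ^ (-ε)) g N ^ d`; or the numbers of representations exceed
`|A| ² / N ^ d` by at most `N ^ (-ε) |A| ²` in total. -/
def FewDifferences {d : ℕ} (N : ℕ) (ε : ℝ) (A : Finset (Fin d → ℤ)) : Prop :=
  (∃ g : ℕ, (∀ h, h ≠ 0 → rep A h ≤ g) ∧
    (1 - (N : ℝ) ^ (-ε)) * g * (N : ℝ) ^ d ≤ (A.card : ℝ) ^ 2) ∨
  excess A ((A.card : ℝ) ^ 2 / (N : ℝ) ^ d) ≤ (N : ℝ) ^ (-ε) * (A.card : ℝ) ^ 2

/-- The integer `y` lies between two consecutive primes `p < p'` with `p + κ f(p) ≤ y` and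
`y + κ f(p) ≤ p'`. -/
def InGap (κ : ℝ) (y : ℤ) : Prop :=
  ∃ n : ℕ, (Nat.nth Nat.Prime n : ℝ) + κ * f (Nat.nth Nat.Prime n) ≤ y ∧
    (y : ℝ) + κ * f (Nat.nth Nat.Prime n) ≤ Nat.nth Nat.Prime (n + 1)

/-- The members `x` of `A` in the box `∏ (a j, b j]` such that for all coprime exponents `e j ≤ E` the
product `y = ∏ (x j) ^ (e j)` has the two properties: every integer at distance at most `κ f(N)` from
`y` has a prime factor `l ≤ N ^ ε`; and if `N ≤ x j ≤ N ^ C` for all `j`, then `y` is in the middle of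
a record gap, `InGap κ y`. -/
def Members {d : ℕ} (N E C : ℕ) (κ ε : ℝ) (A : Finset (Fin d → ℤ)) (a b : Fin d → ℤ) :
    Set (Fin d → ℤ) :=
  {x | x ∈ A ∧ (∀ j, a j < x j ∧ x j ≤ b j) ∧
    ∀ e : Fin d → ℕ, (∀ j, e j ≤ E) → Finset.univ.gcd e = 1 →
      (∀ n : ℤ, |(n : ℝ) - ∏ j, (x j : ℝ) ^ e j| ≤ κ * f N →
        ∃ l : ℕ, l.Prime ∧ (l : ℝ) ≤ (N : ℝ) ^ ε ∧ (l : ℤ) ∣ n) ∧
      ((∀ j, (N : ℤ) ≤ x j ∧ x j ≤ (N : ℤ) ^ C) → InGap κ (∏ j, x j ^ e j))}

/-- **Record prime gaps at the elements of all dense Sidon sets of integer vectors.** -/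
theorem result (d E C : ℕ) (hd : 1 ≤ d) (ε : ℝ) (hε : 0 < ε) (hε1 : ε ≤ 1) :
    ∃ δ : ℝ, 0 < δ ∧ ∃ κ : ℝ, 0 < κ ∧ ∃ N₀ : ℕ, ∀ N : ℕ, N₀ ≤ N →
      ∀ (M : Fin d → ℤ) (A : Finset (Fin d → ℤ)), (∀ x ∈ A, ∀ j, M j < x j ∧ x j ≤ M j + N) →
      2 ≤ A.card → FewDifferences N ε A →
      ∀ a b : Fin d → ℤ, (∀ j, M j ≤ a j ∧ a j ≤ b j ∧ b j ≤ M j + N) →
      (∀ j, (N : ℝ) ^ (1 - δ) ≤ (b j : ℝ) - a j) →
      (A.card : ℝ) * (N : ℝ) ^ (-ε) ≤ ((Members N E C κ ε A a b).ncard : ℝ) := by
  classical
  obtain ⟨h1, h2⟩ := Pool.Agent.U642.WP.mono_balanced d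
    (fun (e : {e : Fin d → Fin (E + 1) // Finset.univ.gcd (fun j => (e j : ℕ)) = 1})
      (j : Fin d) => (e.1 j : ℕ)) (by
      intro e e' h
      apply Subtype.ext
      funext j
      exact Fin.ext (congrFun h j)) (fun e => e.2)
  obtain ⟨δ, hδ, κ, hκ, hmany⟩ := Pool.Agent.U55.SD.many d hd _
    (Pool.Agent.N542.PT.crit_balanced _ _ h2 h1) (ε / 2) (by positivity) (by linarith)
  have hgap := Pool.Agent.U55.SD.inGap (C * (d * E)) κ (ε / 2) hκ (by linarith)
  obtain ⟨K, hK⟩ : ∃ K : ℕ, K = C * (d * E) := ⟨_, rfl⟩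
  rw [← hK] at hgap
  have hK1 : κ / (32 * ((K : ℝ) + 1)) ≤ κ := by
    apply div_le_self hκ.le
    have : (0 : ℝ) ≤ K := Nat.cast_nonneg _
    linarith
  have hff : ∀ᶠ x : ℝ in atTop, 0 ≤ Pool.Agent.W147.PS.ff x := by
    filter_upwards [Pool.Agent.W147.PS.ff_compare 1 one_pos le_rfl, eventually_ge_atTop (1 : ℝ)]
      with x hx hx1
    exact (Real.log_nonneg hx1).trans hx.1
  obtain ⟨x₀, hx₀⟩ := eventually_atTop.mp ((hmany.and hgap).and (hff.and (eventually_ge_atTop (1 : ℝ))))
  obtain ⟨N₀, hN₀⟩ := exists_nat_ge x₀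
  refine ⟨δ, hδ, κ / (32 * ((K : ℝ) + 1)), by positivity, N₀, ?_⟩
  intro N hN M A hA hA2 hfew a b hab hlen
  obtain ⟨⟨hm, hg⟩, hf0, hN1⟩ := hx₀ N (hN₀.trans (by exact_mod_cast hN))
  have hAne : A.Nonempty := card_pos.1 (by omega)
  have hNpos : (0 : ℝ) < N := by linarith
  have hmono : ∀ s t : ℝ, s ≤ t → (N : ℝ) ^ s ≤ (N : ℝ) ^ t := fun s t h =>
    Real.rpow_le_rpow_of_exponent_le hN1 h
  have hex : Pool.Agent.U55.SD.excess A ((A.card : ℝ) ^ 2 / (N : ℝ) ^ d) ≤
      (N : ℝ) ^ (-(ε / 2)) * (A.card : ℝ) ^ 2 := by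
    have h3 : Pool.Agent.U55.SD.excess A ((A.card : ℝ) ^ 2 / (N : ℝ) ^ d) ≤
        (N : ℝ) ^ (-ε) * (A.card : ℝ) ^ 2 := by
      rcases hfew with ⟨g, hg1, hg2⟩ | h3
      · apply Pool.Agent.U55.SD.excess_of_le A hAne g hg1 _ _ (by positivity) (by positivity)
        rw [le_div_iff₀ (by positivity)]
        exact hg2
      · exact h3
    refine h3.trans (mul_le_mul_of_nonneg_right (hmono _ _ (by linarith)) (by positivity))
  obtain ⟨G, hGA, hG1, hG2⟩ := hm N rfl M A (by
    intro x hx
    rw [Pool.Agent.U55.SD.mem_box]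
    exact hA x hx) hA2 hex a b hab hlen
  have h5 : (A.card : ℝ) * (N : ℝ) ^ (-ε) ≤ A.card * (N : ℝ) ^ (-(ε / 2)) :=
    mul_le_mul_of_nonneg_left (hmono _ _ (by linarith)) (Nat.cast_nonneg _)
  refine (h5.trans hG1).trans ?_
  rw [Nat.cast_le, ← Set.ncard_coe_finset]
  have hfin : (Members N E C (κ / (32 * ((K : ℝ) + 1))) ε A a b).Finite :=
    A.finite_toSet.subset (fun x hx => hx.1)
  apply Set.ncard_le_ncard _ hfin
  intro x hx
  rw [mem_coe] at hx
  obtain ⟨h6, h7⟩ := hG2 x hx
  refine ⟨hGA hx, Pool.Agent.U55.SD.mem_box.1 h6, ?_⟩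
  intro e he hgcd
  have h8 := h7 ⟨fun j => ⟨e j, Nat.lt_succ_of_le (he j)⟩, hgcd⟩
  simp only [map_prod, map_pow, MvPolynomial.eval_X] at h8
  constructor
  · intro n hn
    obtain ⟨l, hl, hl1, hl2⟩ := h8 n (by
      push_cast
      refine hn.trans ?_
      exact mul_le_mul_of_nonneg_right hK1 hf0)
    exact ⟨l, hl, hl1.trans (hmono _ _ (by linarith)), hl2⟩
  · intro hsize
    have hNz : (1 : ℤ) ≤ N := by exact_mod_cast hN1
    have hx1 : ∀ j, (1 : ℤ) ≤ x j := fun j => hNz.trans (hsize j).1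
    obtain ⟨i, hi⟩ : ∃ i, e i ≠ 0 := by
      by_contra hcon
      push Not at hcon
      have : Finset.univ.gcd e = 0 := Finset.gcd_eq_zero_iff.2 (fun j _ => hcon j)
      omega
    have hlow : (N : ℤ) ≤ ∏ j, x j ^ e j := by
      have h9 : x i ^ e i ≤ ∏ j, x j ^ e j := by
        rw [← mul_prod_erase univ _ (mem_univ i)]
        have h10 : (1 : ℤ) ≤ ∏ j ∈ univ.erase i, x j ^ e j :=
          Finset.prod_induction _ (fun z : ℤ => 1 ≤ z)
            (fun a b ha hb => by nlinarith) le_rfl (fun j _ => one_le_pow₀ (hx1 j))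
        have h11 : (0 : ℤ) ≤ x i ^ e i := by
          have := hx1 i
          positivity
        nlinarith
      calc (N : ℤ) ≤ x i := (hsize i).1
        _ = x i ^ 1 := (pow_one _).symm
        _ ≤ x i ^ e i := pow_le_pow_right₀ (hx1 i) (Nat.one_le_iff_ne_zero.2 hi)
        _ ≤ _ := h9
    have hup : ∏ j, x j ^ e j ≤ (N : ℤ) ^ K := by
      calc ∏ j, x j ^ e j ≤ ∏ _j : Fin d, (N : ℤ) ^ (C * E) := by
            apply Finset.prod_le_prod
            · intro j _
              have := hx1 j
              positivity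
            · intro j _
              calc x j ^ e j ≤ ((N : ℤ) ^ C) ^ e j :=
                    pow_le_pow_left₀ (by have := hx1 j; linarith) (hsize j).2 _
                _ = (N : ℤ) ^ (C * e j) := by rw [pow_mul]
                _ ≤ _ := pow_le_pow_right₀ hNz (Nat.mul_le_mul_left _ (he j))
        _ = (N : ℤ) ^ K := by
            rw [prod_const, card_univ, Fintype.card_fin, ← pow_mul, hK]
            congr 1
            ring
    exact hg N rfl (∏ j, x j ^ e j) hlow hup (by
      intro n hn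
      exact h8 n (by push_cast at hn ⊢; exact hn))

end Pool.Agent.Results.MP_69be96_nt.DenseSidonSets
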