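import Mathlib
import Pool.Agent.U462.RM.Hawkins

set_option autoImplicit false

/-!
# The second order term of Cramér's law, and the failure of the strict inequality, in every sequential
# random model of the primes

In a sequential random model of the primes the integers are decided one after the other, and the
conditional probability of choosing `n + 1`, given the past, is about `1 / log n`; nothing is assumed on
the dependence of the choices.  Cramér's independent model and the random sieve of Hawkins (in which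
`n + 1` is chosen with conditional probability `∏ (1 - 1/p)`, `p ≤ n` chosen) are examples.  We find
the exact second order term of the maximal gaps: if the conditional probability is
`1 / (log n + o(log log log n))`, then almost surely, for every `ε > 0`,
`g(n) < log² p + (1 + ε) log p log log log p` for all large `n`, `p = p(n)`, and
`g(n) ≥ log² p + (1 - ε) log p log log log p` for infinitely many `n`.  In particular the inequality
`g(n) < log² p(n)` of the conjecture fails for infinitely many `n`, in all these models.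
-/

open MeasureTheory Filter
open scoped Topology

namespace Pool.Agent.Results.MP_69be96_nt.SecondOrderInRandomModels

/-- the members `p(0) < p(1) < ...` of the set `S` in increasing order -/
noncomputable def p (S : Set ℕ) (n : ℕ) : ℕ := Nat.nth (· ∈ S) n

/-- `g(n) = p(n + 1) - p(n) - 1`, the number of integers strictly between `p(n)` and `p(n + 1)` -/
noncomputable def g (S : Set ℕ) (n : ℕ) : ℕ := p S (n + 1) - p S n - 1

/-- `S` is infinite, `g(n) < log² p(n) + (1 + ε) log p(n) log log log p(n)` for all large `n`, and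
`g(n) ≥ log² p(n) + (1 - ε) log p(n) log log log p(n)` for infinitely many `n`, for every `ε > 0`; and the
inequality `g(n) < log² p(n)` fails for infinitely many `n`, even `g(n) > log² p(n)`. -/
def SecondOrderLaw (S : Set ℕ) : Prop :=
  S.Infinite ∧
  (∀ ε : ℝ, 0 < ε →
    (∀ᶠ n in atTop, (g S n : ℝ) <
      Real.log (p S n) ^ 2 + (1 + ε) * Real.log (p S n) * Real.log (Real.log (Real.log (p S n)))) ∧
    ∃ᶠ n in atTop,
      Real.log (p S n) ^ 2 + (1 - ε) * Real.log (p S n) * Real.log (Real.log (Real.log (p S n))) ≤ (g S n : ℝ)) ∧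
  ∃ᶠ n in atTop, Real.log (p S n) ^ 2 < (g S n : ℝ)

/-- the conditional probability of the event `A (n + 1)` given the events up to time `n` -/
noncomputable def condProb {Ω : Type} {m0 : MeasurableSpace Ω} (μ : Measure Ω) (ℱ : Filtration ℕ m0)
    (A : ℕ → Set Ω) (n : ℕ) : Ω → ℝ :=
  μ[(A (n + 1)).indicator (fun _ => (1 : ℝ)) | ℱ n]

open Pool.Agent.U462.RM Pool.Agent.R528.RM

lemma law_of {S : Set ℕ} (h : S.Infinite ∧ ∀ ε : ℝ, 0 < ε →
      (∀ᶠ n in atTop, (gap S n : ℝ) <
        (Real.log (pn S n)) ^ 2 + (1 + ε) * Real.log (pn S n) *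
          Real.log (Real.log (Real.log (pn S n)))) ∧
      (∃ᶠ n in atTop, (Real.log (pn S n)) ^ 2 +
          (1 - ε) * Real.log (pn S n) *
          Real.log (Real.log (Real.log (pn S n))) ≤ gap S n)) : SecondOrderLaw S := by
  refine ⟨h.1, h.2, ?_⟩
  have h1 := (h.2 (1 / 2) (by norm_num)).2
  have h2 : Tendsto (fun n => (pn S n : ℝ)) atTop atTop :=
    tendsto_natCast_atTop_atTop.comp (tendsto_nth h.1)
  have h3 := (Real.tendsto_log_atTop.comp h2).eventually_gt_atTop 0
  have h4 := (Real.tendsto_log_atTop.comp (Real.tendsto_log_atTop.comp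
    (Real.tendsto_log_atTop.comp h2))).eventually_gt_atTop 0
  refine (h1.and_eventually (h3.and h4)).mono fun n hn => ?_
  obtain ⟨g1, g2, g3⟩ := hn
  simp only [Function.comp_apply] at g2 g3
  have h5 : 0 < (1 - 1 / 2) * Real.log (pn S n) * Real.log (Real.log (Real.log (pn S n))) := by
    have : 0 < Real.log (pn S n) * Real.log (Real.log (Real.log (pn S n))) := mul_pos g2 g3
    nlinarith
  have : (Real.log (pn S n)) ^ 2 < (gap S n : ℝ) := by linarith
  exact this

open Classical in
lemma inv_Y {Ω : Type} (A : ℕ → Set Ω) (n : ℕ) (ω : Ω) :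
    ∏ k ∈ (Finset.Icc 2 n).filter (fun k => ω ∈ A k), (1 - 1 / (k : ℝ)) = (Y A n ω)⁻¹ := by
  unfold Y
  rw [Finset.prod_filter, ← Finset.prod_inv_distrib]
  refine Finset.prod_congr rfl fun k hk => ?_
  have h1 : (2 : ℝ) ≤ k := by exact_mod_cast (Finset.mem_Icc.1 hk).1
  have h2 : (k : ℝ) - 1 ≠ 0 := by linarith
  have h3 : (k : ℝ) ≠ 0 := by linarith
  unfold J
  by_cases h : ω ∈ A k
  · rw [if_pos h, Set.indicator_of_mem h]
    refine eq_inv_of_mul_eq_one_left ?_
    field_simp
    ring_nf
  · rw [if_neg h, Set.indicator_of_notMem h]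
    norm_num

open Classical in
theorem result :
    -- (1) every sequential random model
    (∀ (Ω : Type) (m0 : MeasurableSpace Ω) (μ : Measure Ω), IsProbabilityMeasure μ →
      ∀ (ℱ : Filtration ℕ m0) (A : ℕ → Set Ω), (∀ n, MeasurableSet[ℱ n] (A n)) →
      (∀ᵐ ω ∂μ, Tendsto (fun n : ℕ => ((condProb μ ℱ A n ω)⁻¹ - Real.log n) /
        Real.log (Real.log (Real.log n))) atTop (𝓝 0)) →
      ∀ᵐ ω ∂μ, SecondOrderLaw {k | ω ∈ A k}) ∧
    -- (2) the random sieve of Hawkins
    (∀ (Ω : Type) (m0 : MeasurableSpace Ω) (μ : Measure Ω), IsProbabilityMeasure μ →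
      ∀ (ℱ : Filtration ℕ m0) (A : ℕ → Set Ω), (∀ n, MeasurableSet[ℱ n] (A n)) →
      (∀ n : ℕ, 2 ≤ n → ∀ᵐ ω ∂μ, condProb μ ℱ A n ω =
        ∏ k ∈ (Finset.Icc 2 n).filter (fun k => ω ∈ A k), (1 - 1 / (k : ℝ))) →
      (∀ᵐ ω ∂μ, ∃ c : ℝ, Tendsto (fun n : ℕ => (condProb μ ℱ A n ω)⁻¹ - Real.log n) atTop (𝓝 c)) ∧
      ∀ᵐ ω ∂μ, SecondOrderLaw {k | ω ∈ A k}) ∧
    -- (3) independent choices
    (∀ (Ω : Type) (m0 : MeasurableSpace Ω) (μ : Measure Ω), IsProbabilityMeasure μ →
      ∀ A : ℕ → Set Ω, (∀ n, MeasurableSet (A n)) → ProbabilityTheory.iIndepSet A μ →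
      Tendsto (fun n : ℕ => ((μ.real (A (n + 1)))⁻¹ - Real.log n) / Real.log (Real.log (Real.log n)))
        atTop (𝓝 0) →
      ∀ᵐ ω ∂μ, SecondOrderLaw {k | ω ∈ A k}) := by
  refine ⟨?_, ?_, ?_⟩
  · intro Ω m0 μ hμ ℱ A hA hd
    filter_upwards [second_order (μ := μ) hA hd] with ω h
    exact law_of h
  · intro Ω m0 μ hμ ℱ A hA hH
    have hH' : ∀ n : ℕ, 2 ≤ n → ∀ᵐ ω ∂μ, dens μ ℱ A n ω = (Y A n ω)⁻¹ := by
      intro n hn
      filter_upwards [hH n hn] with ω h
      rw [← inv_Y]
      exact h
    refine ⟨hawkins_lim hA hH', ?_⟩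
    filter_upwards [second_order (μ := μ) hA (hawkins_hyp hA hH')] with ω h
    exact law_of h
  · intro Ω m0 μ hμ A hm hi hp
    filter_upwards [second_order (μ := μ) (ℱ := filtrationOfSet hm)
      (measurableSet_filtrationOfSet' hm) (indep_hyp hm hi hp)] with ω h
    exact law_of h

end Pool.Agent.Results.MP_69be96_nt.SecondOrderInRandomModels
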